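import Mathlib
import Pool.Agent.Lib.MP_b56574_an.Main

/-!
# Entropy numbers of mixed smoothness classes in the uniform norm: the lower estimate

For all `d ≥ 2`, `1 ≤ q < ∞`, `r > 1` there is `c > 0` such that for all `α ∈ ℝ^d` and `k ≥ 2`
`ε_k(MW^r_{q,α}, L_∞) ≥ c k^{-r} (ln k)^{(d-1) r + 1/2}`.

Together with the known upper estimate this gives the order of the entropy numbers, in every
dimension. The constant does not depend on `α`, and the theorem holds for real and for complex
valued functions.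

Idea of the proof. Let `g_j(x) = ∏ cos (k_i x_i)`, where `k` runs over a union of `S` dyadic
blocks of total order `n`, `D = 2^n S` frequencies. For random signs `σ` the Riesz product
`ρ_σ = ∏_j (1 + c σ_j g_j)`, `c² = a² n / D`, satisfies `E ρ_σ(x) ρ_σ(y) = K(x,y) =
∏ (1 + c² g_j(x) g_j(y))`. With `X = c² ∑ g_j(x) g_j(y)` the coefficients `b_k = ∫ g_k ρ_σ`
satisfy `E ∑ (b_k - c κ σ_k)² = c^{-2} ∬ X (K - 1 - X)`, which is a small part of `c² κ² D`.
So for most `σ` the function `ρ_σ` separates `∑ σ_j g_j` from `∑ w_j g_j` by a multiple of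
`c D = a √(n D)` for every `w` at Hamming distance at least `D/8`, while the functions
`∑ σ_j φ_j` with `F_r * φ_j = g_j` have `L_q` norm of order `2^{r n} √D`.
-/

open Pool.Agent.MixEnt

/-- The lower estimate of the entropy numbers of the classes `MW^r_{q,α}` in `L_∞`. -/
theorem Pool.Agent.Results.MP_b56574_an.EntropyLower.result :
    ∀ d : ℕ, 2 ≤ d → ∀ q : ℝ, 1 ≤ q → ∀ r : ℝ, 1 < r →
      ∃ c : ℝ, 0 < c ∧ ∀ (𝕜 : Type) [RCLike 𝕜] (α : Fin d → ℝ) (k : ℕ), 2 ≤ k →
        c * (k : ℝ) ^ (-r) * (Real.log k) ^ (((d : ℝ) - 1) * r + 1 / 2) ≤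
          entropyNumber 𝕜 d k (MW 𝕜 d r q α) :=
  fun d hd q hq r hr => main d hd q hq r hr
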